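import Pool.Agent.Q81.TF.Stm

/-! Project TF: the concavity of the square root on a window (`S_CW`). -/

open Set MeasureTheory Filter Topology

namespace Pool.Agent.Q44.TF

open Pool.Agent.Q81.TF

theorem cw : S_CW := by
  intro n p y E H G0 f f1 f2 f3 m P hpy hG0 hH hG dm
  have hw : 0 < y - p := by linarith
  have hfp := P.pos p ⟨le_rfl, hpy.le⟩
  have hH0 : 0 < H := lt_of_lt_of_le hfp (hH p ⟨le_rfl, hpy.le⟩)
  obtain ⟨k, hk⟩ : ∃ k, k = Real.sqrt H := ⟨_, rfl⟩
  have hk0 : 0 < k := by rw [hk]; exact Real.sqrt_pos.2 hH0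
  have hkk : k * k = H := by rw [hk]; exact Real.mul_self_sqrt hH0.le
  obtain ⟨c, hc⟩ : ∃ c, c = G0 / (2 * H * k) := ⟨_, rfl⟩
  have hc0 : 0 < c := by rw [hc]; positivity
  obtain ⟨Θ, hΘ⟩ : ∃ Θ : ℝ → ℝ, Θ = fun x => (x - p) * (y - x) * (f1 x / (2 * √(f x))) -
      (y + p - 2 * x) * √(f x) + c * ((y - p) * (x - p) ^ 2 / 2 - (x - p) ^ 3 / 3) - 2 * k * x :=
    ⟨_, rfl⟩
  have hd : ∀ x ∈ Icc p y, HasDerivAt Θ ((x - p) * (y - x) *
      (f2 x / (2 * √(f x)) - f1 x ^ 2 / (4 * f x * √(f x))) + 2 * √(f x) +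
        c * ((x - p) * (y - x)) - 2 * k) x := by
    intro x hx
    have hf := P.pos x hx
    have hr : 0 < √(f x) := Real.sqrt_pos.2 hf
    have hrr : f x = √(f x) ^ 2 := (Real.sq_sqrt hf.le).symm
    have d0 := (P.d0 x hx).sqrt hf.ne'
    have d1 := (P.d1 x hx).div (d0.const_mul 2) (by positivity)
    have dq : HasDerivAt (fun x => (x - p) * (y - x)) (1 * (y - x) + (x - p) * (0 - 1)) x :=
      ((hasDerivAt_id x).sub_const p).mul ((hasDerivAt_const x y).sub (hasDerivAt_id x))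
    have dl : HasDerivAt (fun x => y + p - 2 * x) (0 - 2 * 1) x :=
      (hasDerivAt_const x (y + p)).sub ((hasDerivAt_id x).const_mul 2)
    have dQ : HasDerivAt (fun x => c * ((y - p) * (x - p) ^ 2 / 2 - (x - p) ^ 3 / 3))
        (c * ((x - p) * (y - x))) x := by
      have e1 := ((((hasDerivAt_id x).sub_const p).pow 2).const_mul (y - p)).div_const 2
      have e2 := (((hasDerivAt_id x).sub_const p).pow 3).div_const 3
      refine ((e1.sub e2).const_mul c).congr_deriv ?_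
      simp only [id, Nat.cast_ofNat, pow_one, Nat.add_one_sub_one, mul_one]
      ring
    have dk : HasDerivAt (fun x => 2 * k * x) (2 * k * 1) x := (hasDerivAt_id x).const_mul (2 * k)
    have h := (((dq.mul d1).sub (dl.mul d0)).add dQ).sub dk
    rw [hΘ]
    refine h.congr_deriv ?_
    simp only [Pi.div_apply]
    obtain ⟨r, hre⟩ : ∃ r, r = √(f x) := ⟨_, rfl⟩
    rw [← hre] at hr hrr ⊢
    rw [hrr]
    field_simp
    ring
  have hle : ∀ x ∈ Icc p y, (x - p) * (y - x) *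
      (f2 x / (2 * √(f x)) - f1 x ^ 2 / (4 * f x * √(f x))) + 2 * √(f x) +
        c * ((x - p) * (y - x)) - 2 * k ≤ 0 := by
    intro x hx
    have hf := P.pos x hx
    have hr : 0 < √(f x) := Real.sqrt_pos.2 hf
    have hrk : √(f x) ≤ k := by rw [hk]; exact Real.sqrt_le_sqrt (hH x hx)
    have hrr : √(f x) * √(f x) = f x := Real.mul_self_sqrt hf.le
    have hGx := hG x hx
    unfold Gf at hGx
    have hq : 0 ≤ (x - p) * (y - x) := mul_nonneg (by linarith [hx.1]) (by linarith [hx.2])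
    have e1 : f2 x / (2 * √(f x)) - f1 x ^ 2 / (4 * f x * √(f x)) =
        -((f1 x ^ 2 / 2 - f x * f2 x) / (2 * f x * √(f x))) := by
      field_simp
      ring
    have e2 : c ≤ (f1 x ^ 2 / 2 - f x * f2 x) / (2 * f x * √(f x)) := by
      rw [hc]
      apply div_le_div₀ (hG0.le.trans hGx) hGx (by positivity)
      have := mul_le_mul (hH x hx) hrk hr.le hH0.le
      nlinarith
    rw [e1]
    have e3 := mul_le_mul_of_nonneg_left e2 hq
    nlinarith
  have hanti : AntitoneOn Θ (Icc p y) := by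
    apply antitoneOn_of_deriv_nonpos (convex_Icc p y)
    · exact fun x hx => (hd x hx).continuousAt.continuousWithinAt
    · intro x hx
      rw [interior_Icc] at hx
      exact (hd x ⟨hx.1.le, hx.2.le⟩).differentiableAt.differentiableWithinAt
    · intro x hx
      rw [interior_Icc] at hx
      rw [(hd x ⟨hx.1.le, hx.2.le⟩).deriv]
      exact hle x ⟨hx.1.le, hx.2.le⟩
  have h1 := hanti ⟨le_rfl, hpy.le⟩ ⟨hpy.le, le_rfl⟩ hpy.le
  rw [hΘ] at h1
  simp only at h1
  have hsy : 0 ≤ √(f y) := Real.sqrt_nonneg _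
  have hsp : 0 ≤ √(f p) := Real.sqrt_nonneg _
  have h2 : c * ((y - p) ^ 3 / 6) ≤ 2 * k * (y - p) := by
    have e1 : (y - p) * (y - y) * (f1 y / (2 * √(f y))) - (y + p - 2 * y) * √(f y) +
        c * ((y - p) * (y - p) ^ 2 / 2 - (y - p) ^ 3 / 3) - 2 * k * y =
        (y - p) * √(f y) + c * ((y - p) ^ 3 / 6) - 2 * k * y := by ring
    have e2 : (p - p) * (y - p) * (f1 p / (2 * √(f p))) - (y + p - 2 * p) * √(f p) +
        c * ((y - p) * (p - p) ^ 2 / 2 - (p - p) ^ 3 / 3) - 2 * k * p =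
        -((y - p) * √(f p)) - 2 * k * p := by ring
    rw [e1, e2] at h1
    have e3 := mul_nonneg hw.le hsy
    have e4 := mul_nonneg hw.le hsp
    linarith
  have h3 : G0 * (y - p) ^ 2 ≤ 24 * H ^ 2 := by
    have e1 : c * ((y - p) ^ 2 / 6) ≤ 2 * k := by
      have e2 : c * ((y - p) ^ 3 / 6) = c * ((y - p) ^ 2 / 6) * (y - p) := by ring
      rw [e2] at h2
      exact le_of_mul_le_mul_right h2 hw
    have e3 : c * (2 * H * k) = G0 := by
      rw [hc]
      field_simp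
    have e4 := mul_le_mul_of_nonneg_right e1 (show 0 ≤ 12 * H * k by positivity)
    have e5 : c * ((y - p) ^ 2 / 6) * (12 * H * k) = c * (2 * H * k) * (y - p) ^ 2 := by ring
    have e6 : 2 * k * (12 * H * k) = 24 * H * (k * k) := by ring
    rw [e5, e3, e6, hkk] at e4
    linarith
  have h4 : m y - m p ≤ H * (y - p) := P.label_lip dm le_rfl hpy.le le_rfl hH
  have h5 : 0 ≤ m y - m p :=
    sub_nonneg.2 (P.mono_m dm ⟨le_rfl, hpy.le⟩ ⟨hpy.le, le_rfl⟩ hpy.le)
  have h6 : (m y - m p) ^ 2 ≤ (H * (y - p)) ^ 2 := pow_le_pow_left₀ h5 h4 2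
  calc G0 * (m y - m p) ^ 2 ≤ G0 * (H * (y - p)) ^ 2 := mul_le_mul_of_nonneg_left h6 hG0.le
    _ = (G0 * (y - p) ^ 2) * H ^ 2 := by ring
    _ ≤ 24 * H ^ 2 * H ^ 2 := mul_le_mul_of_nonneg_right h3 (sq_nonneg H)
    _ = 24 * H ^ 4 := by ring

end Pool.Agent.Q44.TF
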